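import Pool.Agent.H.MP_9fb7a1_lc.B
import Pool.Agent.Lib.helper21.Bushy

set_option autoImplicit false

/-! A low function avoiding an enumerable trace and computing no bounded diagonal function. -/

namespace Pool.Agent.H.MP_f26228_lc

open Filter MeasureTheory Pool.Agent.H.MP_fa2eca_lc Pool.Agent.Lib.helper21 Encodable
open Pool.Agent.Lib.helper21.PR Finset Pool.Agent.H.MP_e12961_lc Pool.Agent.H.MP_9fb7a1_lc

attribute [local irreducible] Primrec Computable

def Ef (z : ℕ × ℕ) (σ : List Bool) : Prop := ∀ i < z.2 + 1,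
  (∃ u < σ.length, Fn.att z.1.unpair.1 (fun k => σ.getD k false) u (z.1 + i) ≠ 0) ∧
    svs z.1.unpair.1 (fun k => σ.getD k false) σ.length (z.1 + i) = decide (i < z.2)

theorem Ef_re : RE fun z : (ℕ × ℕ) × List Bool => Ef z.1 z.2 :=
  RI.re (RI.un (i_ci (by unfold Ef; fun_prop)))

theorem Ef_iff {n v m : ℕ} {B : ℕ → Bool} : Ef (n, v) (pre B m) ↔ ∀ i < v + 1,
    (∃ u < m, Fn.att n.unpair.1 B u (n + i) ≠ 0) ∧ sv n.unpair.1 B (n + i) = decide (i < v) := by
  have h : ∀ k < m, (pre B m).getD k false = B k := fun k hk => by simp [pre, hk]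
  refine forall₂_congr fun i _ => ?_
  rw [pre_len, exists_congr fun u => and_congr_right fun hu => by
    rw [Fn.att_congr _ h (le_of_lt hu)]]
  exact and_congr_right fun c => by rw [svs_congr h le_rfl c]

def Tr (n v : ℕ) : Prop := ((1 : ℕ) : ℝ) / 2 ^ (n + 2) < Fn.mu.real {B | ∃ m, Ef (n, v) (pre B m)}

theorem Tr_re : RE fun z : ℕ × ℕ => Tr z.1 z.2 :=
  r_comp (f := fun z : ℕ × ℕ => (z, 1, z.1 + 2)) (ML.low_mu Ef_re) (by fun_prop)

theorem Tr_card {n : ℕ} {F : Finset ℕ} (h : ∀ v ∈ F, Tr n v) : F.card ≤ 2 ^ (n + 2) := by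
  have h1 := card_nsmul_le_sum F _ _ fun v hv => (h v hv).le
  rw [← measureReal_biUnion_finset _ fun v _ => ML.opn_meas _] at h1
  · have h2 := h1.trans measureReal_le_one
    rw [nsmul_eq_mul, Nat.cast_one, mul_one_div, div_le_one (by positivity)] at h2
    exact_mod_cast h2
  · intro v _ w _ hne
    refine Set.disjoint_left.2 fun B ⟨_, a⟩ ⟨_, b⟩ => hne ?_
    have h1 := (Ef_iff.1 a (min v w) (by omega)).2.symm.trans (Ef_iff.1 b (min v w) (by omega)).2
    simp only [decide_eq_decide] at h1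
    omega

def Pc (n v : ℕ) (τ : List ℕ) : Prop := ∀ j < bb (n + 1), V (Nat.pair n.unpair.2.unpair.2.unpair.1
  (encode (n.unpair.2.unpair.2.unpair.2, j, Fn.tb v j))) τ

theorem bb_prim : Primrec bb := by unfold bb; fun_prop

theorem Pc_re : RE fun z : ℕ × ℕ × List ℕ => Pc z.1 z.2.1 z.2.2 := by
  have h1 := V_re
  have h2 := bb_prim
  have h3 : Primrec fun z : ℕ × ℕ => Fn.tb z.1 z.2 := Fn.tb_prim
  unfold Pc
  generalize PR.V = W at h1
  exact RE.un (RE.re (by fun_prop))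

def Bad (β τ : List ℕ) : Prop :=
  (∃ n, n < τ.length ∧ Tr n (τ.getD n 0)) ∨ ∃ n, n ∈ β ∧ ∃ v, v < 2 ^ bb (n + 1) ∧ Pc n v τ

theorem Bad_re : RE fun z : List ℕ × List ℕ => Bad z.1 z.2 := by
  have h1 := Tr_re
  have h2 := bb_prim
  have h3 := Pc_re
  unfold Bad
  generalize Tr = W at h1
  generalize Pc = P at h3
  exact RE.un (RE.re (by fun_prop))

def Bg (k : ℕ) (S : List ℕ → Prop) (σ : List ℕ) : Prop :=
  Big (fun _ => True) (fun l => (k + 1) * (2 ^ (l + 2) + 1)) S σ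

theorem Bg_re {α : Type} [Primcodable α] {S : α → List ℕ → Prop} {k : α → ℕ} (hk : Primrec k)
    (hS : RE fun z : α × List ℕ => S z.1 z.2) : RE fun z : α × List ℕ => Bg (k z.1) (S z.1) z.2 :=
  big_re (T := fun _ _ => True) (p := fun a l => (k a + 1) * (2 ^ (l + 2) + 1)) (RE.un (RE.re (RE.of_eq (p := fun _ => 0 = 0) (by fun_prop)
    (by simp)))) hS (RE.un (RE.re (by fun_prop))) (fun _ _ _ => Iff.rfl) fun _ _ => by positivity

theorem grow {k : ℕ} {S : List ℕ → Prop} {σ : List ℕ} (h : ¬ Bg k S σ) :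
    ∃ a, ¬ Bg k S (σ ++ [a]) := by
  by_contra! c
  exact h (.step (range _) (card_range _).ge (by simp) fun a _ => c a)

theorem init : ¬ Bg 0 (Bad []) [] := fun h => by
  have : ∀ σ, Bg 0 (Bad []) σ → ∃ n, n < σ.length ∧ Tr n (σ.getD n 0) := fun σ h => by
    induction h with
    | base h => simpa [Bad] using h
    | @step σ F h1 _ _ ih =>
      by_contra c
      refine (Tr_card (n := σ.length) (F := F) fun a ha => ?_).not_gt (by omega)
      obtain ⟨n, h2, h3⟩ := ih a ha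
      rcases (show n ≤ σ.length by simp at h2; omega).eq_or_lt with rfl | d
      · simpa using h3
      · exact absurd ⟨n, d, List.getD_append _ _ _ _ d ▸ h3⟩ c
  simpa using this _ h

theorem forcing : ∃ (g : ℕ → ℕ) (F : ℕ → ℕ → Bool), Primrec (fun z : ℕ × ℕ => F z.1 z.2) ∧
    (∀ n, ¬ Tr n (g n)) ∧ CI (J fun _ => false) (J (gf g)) ∧ ∀ C, CI (gf g) C → ∀ R, ∃ n w, R ≤ n ∧
      F n w ∧ (∀ v < w, ¬ F n v) ∧ ∀ j < bb (n + 1), C j = Fn.tb w.unpair.1 j := by
  classical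
  have hb := bb_prim
  have h0 := Pc_re
  have h1 := Bg_re (α := ℕ × ℕ) (S := fun z => Pc z.1 z.2) (k := fun z => z.1.unpair.2.unpair.1)
    (by fun_prop) (r_comp (f := fun z : (ℕ × ℕ) × List ℕ => (z.1.1, z.1.2, z.2)) h0 (by fun_prop))
  obtain ⟨M, m1, m2, -, m3⟩ := re_bool (r_and (p := fun z : ℕ × ℕ => z.2 < 2 ^ bb (z.1 + 1))
    (by fun_prop) (r_pw (r_comp (f := fun z : ℕ × ℕ => (z, (decode z.1.unpair.1).getD []))
      h1 (by fun_prop)))).re
  let F : ℕ → ℕ → Bool := fun n w => M (n, w.unpair.1) w.unpair.2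
  have hF : Primrec fun z : ℕ × ℕ => F z.1 z.2 := by unfold F; fun_prop
  have j1 := (r_comp (f := fun x : List ℕ × List ℕ × ℕ => (x.2, x.1)) (Bg_re (S := fun z : List ℕ × ℕ =>
    Bad z.1) (k := Prod.snd) .snd (r_comp (f := fun z : (List ℕ × ℕ) × List ℕ => (z.1.1, z.2))
      Bad_re (by fun_prop))) (by fun_prop)).jump (Y := fun _ => false)
  have j2 := (RE.un (RE.re (p := fun n => ∃ w, F n w) (by fun_prop))).jump (Y := fun _ => false)
  let nn : ℕ → List ℕ × List ℕ × ℕ → ℕ := fun s x => Nat.pair (encode x.1) (Nat.pair x.2.2 s)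
  generalize hB : (fun x : List ℕ × List ℕ × ℕ => cd (Bg x.2.2 (Bad x.2.1) x.1)) = b at j1
  have e1 : ∀ x, b x = false ↔ ¬ Bg x.2.2 (Bad x.2.1) x.1 := fun x => by
    rw [← hB, Bool.eq_false_iff, Ne, cd_true]
  generalize hc : (fun n => cd (∃ w, F n w)) = c at j2
  have e2 : ∀ n, c n = false ↔ ¬ ∃ w, F n w := fun x => by
    rw [← hc, Bool.eq_false_iff, Ne, cd_true]
  obtain ⟨f, f1, f2⟩ := RI.choice (Y := J fun _ => false)
    (R := fun (z : ℕ × List ℕ × List ℕ × ℕ) (y : List ℕ × List ℕ × ℕ) => b z.2 ≠ false ∨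
      b y = false ∧ (z.2.1 <+: y.1 ∧ z.2.1.length < y.1.length ∧ ∀ n ∈ z.2.2.1, n ∈ y.2.1) ∧
      ((∃ w, (F (nn z.1 z.2) w ∧ ∀ v < w, ¬ F (nn z.1 z.2) v) ∧ Pc (nn z.1 z.2) w.unpair.1 y.1) ∨
        c (nn z.1 z.2) = false ∧ nn z.1 z.2 ∈ y.2.1))
    (by unfold nn; generalize Pc = P at h0; clear_value F; fun_prop) fun ⟨s, σ, β, k⟩ => by
      by_cases a0 : b (σ, β, k) = false
      swap
      · exact ⟨(σ, β, k), .inl a0⟩
      have a1 := (e1 _).1 a0
      by_cases a2 : ∃ w, F (nn s (σ, β, k)) w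
      · have a3 := (m2 _ _ (Nat.find_spec a2)).2
        simp only [nn, Nat.unpair_pair, encodek, Option.getD_some] at a3
        obtain ⟨τ, a4, -, a5, a6⟩ := a3.meet trivial a1
        obtain ⟨a, a7⟩ := grow a6
        exact ⟨(τ ++ [a], β, k), .inr ⟨(e1 _).2 a7, ⟨a4.trans (List.prefix_append _ _), by
          simpa using Nat.lt_succ_of_le a4.length_le, fun _ h => h⟩, .inl ⟨_, ⟨Nat.find_spec a2,
            fun v hv => Nat.find_min a2 hv⟩, fun j hj => (a5 j hj).mono (List.prefix_append _ _)⟩⟩⟩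
      · generalize hn : nn s (σ, β, k) = n at a2
        have a3 : ¬ Bg ((2 ^ bb (n + 1) + 1) * (k + 1) - 1) (Bad (n :: β)) σ := fun h => by
          refine (Big.union (M := 2 ^ bb (n + 1)) (R := Pc n) (h.mono (fun _ h => h) (fun l _ => by
            rw [Nat.sub_add_cancel (Nat.succ_le_of_lt (by positivity)), mul_assoc]) fun τ _ h => ?_)).elim a1
              fun ⟨v, a4, a5⟩ => ?_
          · rcases h with h | ⟨m, h1, h2⟩
            · exact .inl (.inl h)
            · rcases List.mem_cons.1 h1 with rfl | h1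
              exacts [.inr h2, .inl (.inr ⟨m, h1, h2⟩)]
          · obtain ⟨t, ht⟩ := m3 (n, v) ⟨a4, by simpa [← hn, nn, Bg] using a5⟩
            exact a2 ⟨Nat.pair v t, by simpa [F] using ht⟩
        obtain ⟨a, a7⟩ := grow a3
        exact ⟨(σ ++ [a], n :: β, _), .inr ⟨(e1 _).2 a7, ⟨List.prefix_append _ _, by simp,
          fun _ h => List.mem_cons_of_mem _ h⟩, .inr ⟨(e2 _).2 a2, by simp⟩⟩⟩
  let st : ℕ → List ℕ × List ℕ × ℕ := fun s => Nat.rec ([], [], 0) (fun s x => f (s, x)) s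
  have s0 : CI (J fun _ => false) st := by unfold st; fun_prop
  have s1 : ∀ s, b (st s) = false := fun s => by
    induction s with
    | zero => exact (e1 _).2 init
    | succ s ih => exact ((f2 (s, st s)).resolve_left (not_not.2 ih)).1
  have s2 := fun s => ((f2 (s, st s)).resolve_left (not_not.2 (s1 s))).2
  have s3 : ∀ s, s ≤ (st s).1.length := fun s => by
    induction s with
    | zero => exact Nat.zero_le _
    | succ s ih => exact ih.trans_lt (s2 s).1.2.1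
  obtain ⟨g, g1, g2⟩ := chain (fun s => (st s).1) (fun s => (s2 s).1.1) s3
  have s4 : ∀ s d, ∀ n ∈ (st s).2.1, n ∈ (st (s + d)).2.1 := fun s d n hn => by
    induction d with
    | zero => exact hn
    | succ d ih => exact (s2 _).1.2.2 n ih
  have key : ∀ P : ℕ × ℕ × Bool → Prop, RI (gf g) P → ∃ N : ℕ → ℕ, CI (J fun _ => false) N ∧ ∀ p,
      p ≤ N p ∧ ((∃ w, (F (N p) w ∧ ∀ v < w, ¬ F (N p) v) ∧ ∀ j < bb (N p + 1),
        P (p, j, Fn.tb w.unpair.1 j)) ∨ c (N p) = false ∧ ∀ v < 2 ^ bb (N p + 1),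
          ¬ ∀ j < bb (N p + 1), P (p, j, Fn.tb v j)) := fun P hP => by
    obtain ⟨e, he⟩ := hP.idx
    refine ⟨fun p => nn (Nat.pair e p) (st (Nat.pair e p)), by unfold nn; clear_value st; fun_prop,
      fun p => ⟨(Nat.right_le_pair _ _).trans ((Nat.right_le_pair _ _).trans
        (Nat.right_le_pair _ _)), (s2 (Nat.pair e p)).2.imp (fun ⟨w, a1, a2⟩ => ⟨w, a1,
          fun j hj => (he _).1 (by simpa [nn] using (a2 j hj).sound (g2 (_ + 1)))⟩)
            fun a => ⟨a.1, fun v hv h => ?_⟩⟩⟩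
    have a2 := a.2
    choose! t ht using fun j hj => V.complete ((he _).2 (h j hj))
    refine (e1 _).1 (s1 (Nat.pair e p + 1 + (range (bb (nn (Nat.pair e p) (st (Nat.pair e p)) + 1))).sup
      t)) (.base (.inr ⟨_, s4 _ _ _ a2, v, hv,
      fun j hj => ?_⟩))
    simpa [nn] using ht j hj _ (((le_sup (mem_range.2 hj)).trans (Nat.le_add_left _ _)).trans
      (s3 _)) (g2 _)
  refine ⟨g, F, hF, fun n h => (e1 _).1 (s1 (n + 1)) (.base (.inl ⟨n, s3 _, g1 n ▸ h⟩)), ?_,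
    fun C hC R => ?_⟩
  · obtain ⟨N, a1, a2⟩ := key (fun z => J (gf g) z.1 = true) ((J_ri _).comp .fst)
    refine (ci_comp j2 a1).of_eq fun p => Bool.eq_iff_iff.2 ?_
    rcases (a2 p).2 with ⟨w, a3, a4⟩ | ⟨a3, a4⟩
    · exact iff_of_true (Bool.eq_true_of_not_eq_false fun d => (e2 _).1 d ⟨w, a3.1⟩)
        (a4 0 (by simp [bb]))
    · exact iff_of_false (by simp [a3]) fun d => a4 0 (by positivity) fun _ _ => d
  · obtain ⟨N, -, a2⟩ := key (fun z => C z.2.1 = z.2.2) (hC.ri.comp .snd)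
    obtain ⟨w, a3, a4⟩ := (a2 R).2.resolve_right fun ⟨_, a4⟩ =>
      a4 _ (Fn.cd_lt C _) fun j hj => (Fn.tb_cd C _ j hj).symm
    exact ⟨_, w, (a2 R).1, a3.1, a3.2, a4⟩

theorem esc2 {A B : ℕ → Bool} {F : ℕ → ℕ → Bool} (hF : Primrec fun z : ℕ × ℕ => F z.1 z.2)
    (hA : ∀ C, CI A C → ∀ R, ∃ n w, R ≤ n ∧ F n w ∧ (∀ v < w, ¬ F n v) ∧
      ∀ j < bb (n + 1), C j = Fn.tb w.unpair.1 j) {f : ℕ → ℕ} (hf : CI B f)
    (h : ∀ g, CI A g → ∃ᶠ n in atTop, g n < f n) :
    ∃ D, CI B D ∧ CI D B ∧ ∀ C, CI A C → 3 / 4 ≤ del C D := by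
  have hb := bb_prim
  have ht : Primrec fun z : ℕ × ℕ => Fn.tb z.1 z.2 := Fn.tb_prim
  obtain ⟨l, h5, h6⟩ := block bb hb rfl (strictMono_nat_of_lt_succ fun n => by
    show _ < (n + 1) * (bb n + 1); nlinarith)
  have hB := ci_self B
  have hl := h5 B
  let G : ℕ → ℕ := fun n => ∑ i ∈ range (n + 1), f i
  let D : ℕ → Bool := fun n => if n % 8 = 0 then B (n / 8) else
    !decide (∃ w < G (l n), F (l n) w ∧ (∀ v < w, ¬ F (l n) v) ∧ Fn.tb w.unpair.1 n)
  refine ⟨D, by unfold D G; fun_prop, (ci_comp (g := fun n => 8 * n) (ci_self D)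
    (by fun_prop)).of_eq fun n => by simp [D], fun C hC => le_of_eq_of_le (by norm_num)
      (far (k := 8) (by norm_num) fun R => ?_)⟩
  obtain ⟨g, k2, k3⟩ := RI.choice (Y := A) (R := fun R w => ∃ n, R ≤ n ∧ F n w ∧
    (∀ v < w, ¬ F n v) ∧ ∀ j < bb (n + 1), C j = Fn.tb w.unpair.1 j) (by fun_prop)
      fun R => exists_comm.1 (hA C hC R)
  obtain ⟨m, k4, k5⟩ := ((h g k2).and_eventually (eventually_ge_atTop R)).exists
  obtain ⟨n, k6, k7, k8, k9⟩ := k3 m
  have k10 : g m < G n :=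
    k4.trans_le (single_le_sum (fun _ _ => Nat.zero_le _) (mem_range.2 (by omega)))
  refine ⟨bb n, fun j a1 a2 a3 => ?_⟩
  have a4 : j < bb (n + 1) := a2.trans_le (Nat.mul_le_mul_right _ (by omega))
  simp only [D, if_neg a3, (h6 _ _).2 ⟨a1, a4⟩, k9 j a4]
  rw [Ne, Bool.eq_not, not_not, Bool.eq_iff_iff, decide_eq_true_iff]
  refine ⟨fun c => ⟨_, k10, k7, k8, c⟩, fun ⟨w, _, b1, b2, b3⟩ => ?_⟩
  rwa [le_antisymm (not_lt.1 fun c => k8 _ c b1) (not_lt.1 fun c => b2 _ c k7)]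

theorem final : ∃ A, ¬ Attractive A ∧ ¬ ∀ᵐ B ∂coin, ∃ G, TuringReducible (orc G) (orc B) ∧
    ∀ W : Set (List Bool), (∃ f : ℕ →. ℕ, TuringReducible f (orc A) ∧
      ∀ σ, σ ∈ W ↔ (f (encode σ)).Dom) → (∀ σ, ∃ τ ∈ W, σ <+: τ) →
        ∃ n, List.ofFn (fun i : Fin n => G i) ∈ W := by
  obtain ⟨g, F, h1, h2, h3, h4⟩ := forcing
  refine ⟨gf g, fun h => not_J _ ((high2 ?_).trans h3), fun h => ?_⟩
  · filter_upwards [h] with B hB f hf
    by_contra! c
    obtain ⟨D, k1, k2, k3⟩ := esc2 h1 h4 (CI.of_red hf) fun g hg => c g hg.red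
    have := le_ciSup_of_le (f := fun D : Deg B => ⨅ C : Deg (gf g), del C.1 D.1) ⟨1, by
      rintro _ ⟨D, rfl⟩
      exact ciInf_le_of_le ⟨0, by rintro _ ⟨C, rfl⟩; exact del_ge _ _⟩ ⟨gf g, .refl _⟩
        (del_le (.of_forall (del_bd _ _)))⟩ ⟨D, k1.orc, k2.orc⟩
      (le_ciInf fun C => k3 C.1 (CI.of_orc C.2.1))
    have := (le_max_right _ _).trans_eq hB
    linarith
  · rw [coin_eq] at h
    have h5 : Fn.mu (⋃ n, {B | ∃ m, Ef (n, g n) (pre B m)}) < 1 := by
      refine (measure_iUnion_le _).trans_lt ((ENNReal.tsum_le_tsum (g := fun e => 2⁻¹ ^ (e + 2))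
        fun e => ?_).trans_lt ?_)
      · rw [← ENNReal.toReal_le_toReal (measure_ne_top _ _) (by simp)]
        simpa [Measure.real] using not_lt.1 (h2 e)
      · simp only [pow_add, ENNReal.tsum_mul_right, ENNReal.tsum_geometric,
          ENNReal.one_sub_inv_two, inv_inv]
        rw [← ENNReal.toReal_lt_toReal (by finiteness) (by finiteness)]
        simp; norm_num
    obtain ⟨B, k1, G, k2, k3⟩ := pick h5 h
    obtain ⟨e, k4, rfl⟩ := sv_spec k2
    have := ci_gf g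
    obtain ⟨n, k, a1, a2⟩ := k3 {σ | ∃ k, Nat.pair e k + g (Nat.pair e k) < σ.length ∧
      ∀ i < g (Nat.pair e k) + 1, σ.getD (Nat.pair e k + i) false = decide (i < g (Nat.pair e k))}
      (RI.dom (RI.un (by clear k2 k3; fun_prop))) fun σ => by
        have := Nat.right_le_pair e σ.length
        generalize hn : Nat.pair e σ.length = n at this
        refine ⟨σ ++ (List.range (n + g n + 1 - σ.length)).map fun j =>
          decide (σ.length + j < n + g n), ⟨σ.length, ?_⟩, List.prefix_append _ _⟩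
        rw [hn]
        refine ⟨by simp; omega, fun i hi => ?_⟩
        rw [List.getD_append_right _ _ _ _ (by omega), List.getD_eq_getElem _ _ (by simp; omega)]
        simp; omega
    obtain ⟨m, hm⟩ := stage k4 (Nat.pair e k + g (Nat.pair e k) + 1)
    refine k1 (Set.mem_iUnion.2 ⟨Nat.pair e k, m, Ef_iff.2 fun i hi => ?_⟩)
    rw [Nat.unpair_pair, ← a2 i hi, List.getD_eq_getElem _ _ (by omega)]
    exact ⟨hm _ (by omega), by simp⟩

end Pool.Agent.H.MP_f26228_lc
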